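import Pool.Agent.R50.Grid.Upper

/-!
# Nested grid-equidistributed sequences: a `24`-good sequence
-/

set_option autoImplicit false
set_option maxRecDepth 100000

namespace Pool.Agent.R50.Grid

/-- The points `(p / q, r / s)` of a `24`-good sequence, as quadruples `(p, q, r, s)`. -/
def pts : List (ℕ × ℕ × ℕ × ℕ) :=
  [(1, 25, 1, 25), (5, 28, 19, 31), (31, 33, 31, 33), (24, 25, 1, 25), (8, 25, 24, 35),
    (17, 30, 24, 37), (25, 41, 2, 47), (21, 34, 21, 26), (24, 25, 16, 27), (3, 34, 28, 33),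
    (5, 32, 10, 33), (11, 29, 23, 25), (11, 28, 12, 31), (13, 30, 2, 39), (20, 27, 13, 31),
    (33, 35, 9, 25), (2, 27, 12, 29), (7, 26, 15, 32), (9, 29, 4, 29), (17, 31, 31, 33),
    (16, 29, 13, 28), (17, 29, 10, 33), (22, 31, 8, 37), (27, 35, 23, 33), (29, 31, 24, 31),
    (2, 29, 16, 29), (5, 33, 21, 29), (7, 32, 7, 40), (8, 29, 31, 33), (11, 27, 17, 31),
    (12, 29, 9, 38), (17, 39, 20, 27), (21, 29, 32, 37), (19, 25, 16, 29), (26, 33, 3, 32),
    (45, 47, 7, 31), (2, 47, 24, 25), (2, 41, 4, 27), (2, 33, 17, 26), (6, 29, 3, 34),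
    (11, 27, 27, 32), (12, 25, 10, 27), (15, 28, 7, 40), (19, 30, 17, 31), (24, 37, 27, 29),
    (23, 33, 17, 27), (23, 28, 24, 31), (33, 40, 7, 25), (29, 32, 13, 28), (2, 39, 11, 36),
    (4, 27, 13, 31), (5, 28, 24, 29), (5, 27, 24, 25), (7, 26, 14, 25), (7, 25, 23, 28),
    (9, 31, 7, 26), (11, 36, 2, 43), (19, 36, 15, 26), (23, 33, 8, 27), (19, 27, 3, 28),
    (22, 27, 15, 32), (28, 33, 37, 39), (33, 38, 5, 38), (23, 26, 16, 25), (1, 25, 20, 27),
    (5, 37, 20, 37), (11, 36, 11, 27), (13, 37, 23, 39), (12, 29, 5, 38), (21, 40, 2, 31),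
    (21, 40, 19, 26), (21, 40, 23, 26), (17, 32, 9, 34), (21, 34, 4, 31), (16, 25, 11, 28),
    (17, 26, 29, 41), (20, 27, 29, 31), (23, 29, 13, 37), (22, 25, 22, 25), (33, 35, 23, 26),
    (24, 25, 3, 26), (2, 33, 7, 31), (3, 25, 2, 45), (3, 25, 6, 25), (4, 29, 3, 28),
    (8, 35, 9, 29), (8, 35, 25, 34), (7, 27, 17, 26), (13, 37, 22, 27), (9, 25, 9, 31),
    (10, 27, 29, 41), (14, 31, 21, 44), (17, 36, 24, 37), (19, 40, 33, 35), (25, 41, 17, 39),
    (19, 26, 19, 26), (27, 32, 17, 31), (25, 28, 2, 31), (25, 28, 16, 41), (24, 25, 20, 29),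
    (1, 25, 12, 25), (3, 25, 24, 25), (4, 29, 29, 37), (6, 29, 13, 29), (7, 32, 28, 31),
    (7, 26, 7, 31), (11, 31, 16, 35), (13, 30, 9, 29), (12, 25, 19, 36), (19, 35, 11, 31),
    (16, 27, 29, 32), (25, 41, 7, 33), (17, 25, 2, 37), (20, 29, 23, 44), (25, 36, 23, 29),
    (29, 38, 2, 43), (23, 29, 28, 33), (22, 27, 5, 26), (23, 26, 5, 27), (27, 29, 23, 44),
    (41, 43, 17, 39), (2, 43, 21, 26), (2, 27, 32, 35), (3, 26, 15, 43), (3, 25, 17, 27),
    (5, 27, 1, 25), (9, 43, 21, 40), (9, 38, 10, 27), (8, 27, 23, 26), (11, 30, 1, 25),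
    (11, 25, 5, 26), (11, 25, 28, 31), (15, 32, 3, 31), (17, 36, 23, 29), (14, 25, 26, 33),
    (22, 39, 3, 26), (16, 25, 20, 31), (24, 35, 9, 25), (23, 29, 25, 27), (21, 26, 16, 25),
    (33, 38, 31, 42), (31, 34, 33, 40), (32, 35, 7, 27), (23, 25, 11, 35), (2, 33, 9, 25),
    (2, 25, 17, 36), (3, 31, 5, 29), (9, 43, 17, 25), (7, 25, 3, 29), (10, 33, 19, 25),
    (8, 25, 15, 43), (11, 31, 5, 32), (11, 31, 13, 25), (11, 31, 45, 47), (16, 41, 21, 34),
    (13, 31, 39, 41), (21, 40, 11, 26), (15, 26, 16, 27), (17, 29, 19, 26), (19, 30, 8, 29),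
    (17, 26, 5, 26), (17, 25, 27, 31), (31, 42, 8, 25), (23, 30, 17, 36), (21, 25, 2, 29),
    (27, 32, 11, 26), (23, 25, 17, 30), (25, 27, 22, 31), (24, 25, 12, 41), (1, 25, 2, 25),
    (1, 25, 23, 39), (1, 25, 25, 27), (4, 31, 17, 25), (4, 25, 4, 25), (4, 25, 8, 37),
    (7, 40, 23, 26), (9, 38, 1, 25), (7, 25, 17, 28), (10, 27, 6, 29), (10, 27, 24, 31),
    (13, 31, 11, 25), (13, 29, 17, 28), (12, 25, 7, 25), (17, 31, 21, 40), (17, 27, 24, 25),
    (20, 31, 29, 38), (28, 41, 11, 25), (21, 29, 5, 29), (31, 42, 17, 28), (19, 25, 23, 29),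
    (29, 38, 9, 34), (24, 31, 4, 29), (27, 32, 24, 35), (23, 25, 24, 25), (24, 25, 7, 40),
    (24, 25, 27, 32), (1, 25, 17, 39), (2, 31, 22, 31), (3, 32, 3, 26), (3, 32, 23, 29),
    (3, 31, 9, 31), (5, 32, 19, 40), (7, 40, 11, 30), (7, 33, 15, 26), (7, 32, 7, 31),
    (9, 38, 41, 43), (6, 25, 32, 37), (11, 28, 3, 34), (13, 29, 16, 41), (14, 31, 23, 33),
    (12, 25, 5, 27), (19, 36, 24, 29), (16, 29, 1, 25), (14, 25, 7, 30), (15, 26, 32, 37),
    (17, 28, 21, 44), (17, 25, 18, 31), (19, 26, 24, 25), (21, 26, 9, 38), (28, 33, 11, 30),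
    (28, 33, 26, 29), (25, 29, 1, 25), (32, 37, 23, 28), (31, 33, 17, 26), (24, 25, 21, 44),
    (1, 25, 17, 32), (1, 25, 25, 29), (3, 29, 23, 39), (5, 26, 11, 27), (7, 32, 24, 31),
    (7, 26, 18, 25), (7, 25, 8, 25), (15, 43, 2, 25), (13, 37, 12, 29), (13, 37, 22, 25),
    (13, 34, 9, 26), (16, 39, 17, 25), (13, 31, 23, 29), (14, 31, 23, 27), (21, 44, 2, 41),
    (23, 44, 16, 25), (15, 26, 24, 25), (17, 29, 17, 31), (18, 29, 9, 26), (17, 27, 2, 25),
    (17, 25, 4, 27), (18, 25, 17, 36), (21, 29, 2, 33), (26, 33, 45, 47), (23, 29, 16, 39),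
    (21, 26, 22, 39), (23, 27, 16, 27), (22, 25, 7, 30), (23, 25, 1, 25), (24, 25, 17, 31),
    (24, 25, 23, 29), (1, 25, 9, 43), (1, 25, 7, 27), (1, 25, 12, 31), (2, 47, 23, 33),
    (2, 25, 1, 25), (3, 35, 45, 47), (4, 31, 27, 31), (5, 26, 7, 25), (9, 38, 3, 25),
    (7, 27, 23, 44), (10, 33, 12, 25), (13, 41, 20, 37), (8, 25, 5, 27), (8, 25, 33, 35),
    (9, 26, 6, 25), (13, 30, 17, 30), (13, 25, 4, 31), (23, 44, 13, 41), (17, 28, 28, 41),
    (17, 27, 25, 29), (17, 25, 6, 25), (28, 41, 43, 45), (25, 36, 28, 41), (25, 34, 10, 27),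
    (20, 27, 17, 26), (22, 27, 1, 25), (22, 27, 18, 25), (23, 27, 21, 44), (22, 25, 10, 33),
    (31, 33, 3, 25), (24, 25, 9, 26), (24, 25, 31, 42), (24, 25, 37, 39), (1, 25, 19, 30),
    (2, 25, 2, 25), (3, 29, 20, 27), (4, 31, 32, 35), (4, 25, 17, 30), (7, 37, 5, 38),
    (7, 27, 34, 43), (11, 42, 2, 25), (11, 42, 11, 26), (7, 26, 5, 29), (10, 33, 16, 25),
    (10, 33, 24, 25), (9, 25, 17, 26), (11, 27, 12, 25), (14, 31, 4, 27), (14, 31, 24, 25),
    (15, 32, 6, 25), (12, 25, 20, 27), (13, 25, 39, 41), (16, 29, 25, 36), (15, 26, 2, 25),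
    (23, 39, 11, 29), (17, 27, 16, 27), (17, 26, 1, 25), (17, 26, 8, 25), (17, 26, 12, 25),
    (23, 33, 32, 35), (22, 31, 19, 25), (23, 29, 13, 25), (24, 29, 3, 25), (24, 29, 24, 29),
    (23, 25, 6, 29), (35, 37, 21, 34), (24, 25, 2, 25), (24, 25, 26, 29), (1, 25, 9, 26),
    (2, 37, 13, 25), (3, 25, 14, 31), (4, 31, 5, 26), (5, 38, 2, 33), (5, 38, 24, 29),
    (4, 25, 35, 37), (5, 29, 29, 38), (7, 37, 23, 33), (7, 32, 17, 27), (11, 42, 13, 37),
    (9, 26, 31, 42), (11, 27, 12, 41), (16, 39, 1, 25), (14, 31, 9, 26), (17, 36, 13, 30),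
    (12, 25, 16, 27), (12, 25, 21, 25), (13, 25, 7, 32), (13, 25, 12, 25), (15, 26, 13, 31),
    (23, 39, 5, 29), (17, 27, 31, 42), (17, 26, 24, 29), (19, 27, 1, 25), (22, 31, 14, 25),
    (31, 42, 13, 25), (19, 25, 7, 31), (27, 35, 5, 28), (24, 31, 20, 27), (25, 32, 25, 28),
    (23, 29, 17, 28), (21, 25, 24, 25), (23, 25, 11, 27), (35, 37, 2, 25), (24, 25, 16, 41),
    (24, 25, 20, 31), (1, 25, 5, 32), (2, 41, 19, 25), (2, 39, 25, 41), (3, 35, 26, 29),
    (5, 37, 16, 41), (4, 27, 7, 27), (5, 29, 13, 25), (5, 28, 2, 31), (6, 29, 12, 25),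
    (8, 37, 23, 28), (6, 25, 7, 26), (7, 27, 24, 25), (8, 29, 1, 25), (11, 36, 21, 26),
    (11, 35, 9, 31), (13, 41, 18, 31), (8, 25, 23, 27), (15, 43, 10, 27), (11, 30, 3, 28),
    (11, 27, 25, 28), (13, 25, 1, 25), (13, 25, 28, 41), (13, 25, 34, 43), (18, 31, 33, 40),
    (16, 27, 7, 27), (19, 30, 4, 25), (22, 31, 23, 28), (21, 29, 7, 27), (23, 29, 13, 41),
    (28, 33, 8, 25), (25, 29, 7, 26), (22, 25, 13, 30), (22, 25, 23, 25), (22, 25, 24, 25),
    (25, 28, 13, 25), (26, 29, 25, 36), (26, 29, 25, 32), (25, 27, 5, 32), (24, 25, 24, 25),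
    (1, 25, 3, 25), (1, 25, 12, 41), (1, 25, 30, 37), (2, 29, 11, 42), (3, 25, 12, 25),
    (5, 29, 17, 26), (6, 29, 37, 39), (8, 29, 24, 35), (10, 33, 8, 37), (13, 41, 14, 31),
    (8, 25, 3, 32), (11, 29, 21, 40), (16, 41, 7, 27), (11, 28, 28, 43), (11, 28, 24, 25),
    (11, 27, 5, 28), (11, 27, 31, 42), (15, 32, 1, 25), (12, 25, 19, 40), (12, 25, 26, 29),
    (12, 25, 24, 25), (13, 25, 11, 27), (19, 36, 24, 25), (20, 37, 13, 25), (17, 30, 8, 25),
    (19, 31, 17, 26), (17, 26, 3, 26), (17, 26, 13, 30), (22, 31, 11, 27), (21, 29, 17, 25),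
    (20, 27, 1, 25), (20, 27, 3, 31), (19, 25, 23, 27), (29, 37, 26, 33), (23, 28, 4, 25),
    (27, 32, 24, 37), (23, 26, 22, 39), (26, 29, 17, 28), (28, 31, 9, 26), (31, 34, 31, 42),
    (43, 45, 11, 42), (1, 25, 17, 25), (1, 25, 23, 26), (2, 33, 3, 25), (3, 34, 11, 28),
    (3, 26, 23, 33), (4, 25, 1, 25), (4, 25, 9, 26), (4, 25, 24, 25), (5, 27, 6, 25),
    (6, 29, 8, 25), (6, 29, 20, 27), (8, 35, 17, 28), (7, 26, 25, 29), (8, 25, 1, 25),
    (8, 25, 25, 41), (11, 27, 13, 30), (14, 31, 13, 25), (19, 40, 22, 39), (12, 25, 4, 25),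
    (12, 25, 8, 25), (12, 25, 23, 33), (13, 25, 18, 29), (18, 31, 6, 29), (16, 27, 23, 25),
    (17, 28, 13, 25), (19, 30, 10, 27), (28, 43, 13, 25), (17, 25, 9, 31), (17, 25, 18, 29),
    (17, 25, 25, 32), (17, 25, 24, 25), (31, 42, 29, 32), (27, 35, 13, 41), (25, 32, 16, 41),
    (23, 29, 2, 43), (25, 29, 7, 31), (25, 29, 13, 25), (25, 29, 27, 35), (33, 38, 5, 28),
    (22, 25, 1, 25), (23, 25, 12, 25), (24, 25, 11, 26), (24, 25, 13, 25), (2, 47, 11, 26),
    (2, 45, 27, 32), (2, 25, 7, 40), (3, 35, 18, 31), (3, 26, 1, 25), (3, 25, 13, 41),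
    (3, 25, 20, 37), (4, 25, 25, 41), (5, 29, 27, 31), (5, 28, 7, 37), (7, 32, 16, 35),
    (7, 31, 2, 37), (7, 30, 12, 25), (9, 38, 5, 37), (6, 25, 11, 27), (9, 29, 11, 35),
    (8, 25, 20, 27), (9, 26, 12, 25), (9, 26, 27, 31), (9, 26, 24, 25), (16, 41, 24, 29),
    (11, 26, 23, 30), (13, 29, 17, 26), (16, 35, 9, 31), (13, 25, 3, 35), (19, 35, 5, 38),
    (17, 31, 20, 27), (17, 28, 1, 25), (17, 28, 3, 25), (17, 28, 23, 30), (28, 43, 9, 38),
    (28, 43, 28, 31), (23, 30, 24, 25), (27, 35, 13, 25), (25, 32, 17, 28), (25, 32, 24, 37),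
    (23, 29, 20, 29), (23, 29, 31, 34), (27, 31, 3, 34), (27, 31, 21, 25), (22, 25, 5, 38),
    (23, 25, 21, 26), (35, 37, 23, 27), (24, 25, 4, 27), (24, 25, 29, 38), (1, 25, 5, 26),
    (1, 25, 17, 31), (1, 25, 23, 30), (1, 25, 24, 25), (2, 47, 25, 27), (3, 32, 29, 37),
    (3, 26, 4, 25), (5, 33, 19, 30), (6, 29, 18, 31), (7, 32, 24, 25), (7, 27, 28, 31),
    (11, 42, 4, 27), (8, 29, 16, 39), (9, 26, 10, 33), (10, 27, 18, 31), (11, 29, 2, 41),
    (12, 29, 23, 30), (13, 31, 3, 31), (13, 31, 6, 25), (17, 39, 1, 25), (19, 40, 27, 35),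
    (12, 25, 12, 29), (13, 25, 11, 31), (19, 36, 21, 25), (19, 35, 16, 39), (19, 35, 22, 39),
    (15, 26, 9, 31), (15, 26, 23, 26), (16, 27, 23, 39), (17, 28, 25, 29), (21, 34, 24, 25),
    (17, 25, 5, 28), (17, 25, 16, 41), (17, 25, 20, 27), (23, 33, 13, 28), (21, 29, 4, 27),
    (29, 38, 13, 30), (25, 32, 1, 25), (25, 32, 9, 26), (30, 37, 13, 29), (30, 37, 24, 25),
    (28, 33, 11, 29), (22, 25, 21, 25), (31, 34, 3, 25), (23, 25, 25, 36), (24, 25, 9, 38),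
    (24, 25, 8, 29)]

/-- The number of the cell of the `k × k` grid which contains the point `(p / q, r / s)`. -/
def code (k : ℕ) (a : ℕ × ℕ × ℕ × ℕ) : ℕ :=
  (k * a.1 / a.2.1) * k + k * a.2.2.1 / a.2.2.2

/-- The set of the cells which contain a point of the list, as a binary number. -/
def mask (k : ℕ) : List (ℕ × ℕ × ℕ × ℕ) → ℕ
  | [] => 0
  | a :: l => 2 ^ code k a ||| mask k l

theorem testBit_mask (k c : ℕ) (l : List (ℕ × ℕ × ℕ × ℕ)) (h : (mask k l).testBit c = true) :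
    ∃ a ∈ l, code k a = c := by
  induction l with
  | nil => simp [mask] at h
  | cons a l ih =>
    rw [mask, Nat.testBit_or, Bool.or_eq_true] at h
    rcases h with h | h
    · refine ⟨a, List.mem_cons_self, ?_⟩
      rw [Nat.testBit_two_pow] at h
      simpa using h
    · obtain ⟨b, hb, hc⟩ := ih h
      exact ⟨b, List.mem_cons_of_mem _ hb, hc⟩

theorem chk1 : ∀ a ∈ pts, a.1 < a.2.1 ∧ a.2.2.1 < a.2.2.2 := by
  decide +kernel

theorem len : pts.length = 576 := by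
  decide +kernel

theorem chk2 : ∀ k < 25, mask k (pts.take (k ^ 2)) = 2 ^ (k ^ 2) - 1 := by
  decide +kernel

theorem lower : ∃ x : Fin (24 ^ 2) → ℝ × ℝ, Good 24 x := by
  have hlen : ∀ t : Fin (24 ^ 2), (t : ℕ) < pts.length := by
    intro t
    rw [len]
    have := t.2
    norm_num at this
    exact this
  let P : Fin (24 ^ 2) → ℕ × ℕ × ℕ × ℕ := fun t => pts[(t : ℕ)]'(hlen t)
  have hP : ∀ t, (P t).1 < (P t).2.1 ∧ (P t).2.2.1 < (P t).2.2.2 := fun t =>
    chk1 _ (List.getElem_mem _)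
  refine ⟨fun t => (((P t).1 : ℝ) / (P t).2.1, ((P t).2.2.1 : ℝ) / (P t).2.2.2), ?_, ?_⟩
  · intro t
    obtain ⟨h1, h2⟩ := hP t
    have h1' : (0 : ℝ) < (P t).2.1 := by exact_mod_cast (by omega : 0 < (P t).2.1)
    have h2' : (0 : ℝ) < (P t).2.2.2 := by exact_mod_cast (by omega : 0 < (P t).2.2.2)
    simp only [Set.mem_prod, Set.mem_Ico]
    refine ⟨⟨by positivity, ?_⟩, by positivity, ?_⟩
    · rw [div_lt_one h1']; exact_mod_cast h1
    · rw [div_lt_one h2']; exact_mod_cast h2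
  · intro k hk1 hk i hi j hj
    have hk0 : (0 : ℝ) < k := by exact_mod_cast hk1
    -- membership in a cell
    have mem : ∀ a : ℕ × ℕ × ℕ × ℕ, a.1 < a.2.1 ∧ a.2.2.1 < a.2.2.2 → ∀ i j : ℕ,
        (((a.1 : ℝ) / a.2.1, (a.2.2.1 : ℝ) / a.2.2.2) ∈ cell k i j ↔
          k * a.1 / a.2.1 = i ∧ k * a.2.2.1 / a.2.2.2 = j) := by
      intro a ha i j
      obtain ⟨h1, h2⟩ := ha
      have h1' : 0 < a.2.1 := by omega
      have h2' : 0 < a.2.2.2 := by omega
      have aux : ∀ (a b i : ℕ), 0 < b → ((i : ℝ) / k ≤ (a : ℝ) / b ∧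
          (a : ℝ) / b < ((i : ℝ) + 1) / k ↔ k * a / b = i) := by
        intro a b i hb
        have hb' : (0 : ℝ) < b := by exact_mod_cast hb
        rw [div_le_div_iff₀ hk0 hb', div_lt_div_iff₀ hb' hk0, Nat.div_eq_iff hb]
        constructor
        · rintro ⟨g1, g2⟩
          have g1' : i * b ≤ a * k := by exact_mod_cast g1
          have g2' : a * k < (i + 1) * b := by exact_mod_cast g2
          have e : (i + 1) * b = i * b + b := by ring
          have e2 : k * a = a * k := mul_comm _ _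
          constructor
          · omega
          · omega
        · rintro ⟨g1, g2⟩
          have e : (i + 1) * b = i * b + b := by ring
          have e2 : k * a = a * k := mul_comm _ _
          have g1' : i * b ≤ a * k := by omega
          have g2' : a * k < (i + 1) * b := by omega
          exact ⟨by exact_mod_cast g1', by exact_mod_cast g2'⟩
      simp only [cell, Set.mem_prod, Set.mem_Ico]
      rw [aux _ _ _ h1', aux _ _ _ h2']
    have bound : ∀ a : ℕ × ℕ × ℕ × ℕ, a.1 < a.2.1 ∧ a.2.2.1 < a.2.2.2 → k * a.1 / a.2.1 < k ∧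
        k * a.2.2.1 / a.2.2.2 < k := by
      intro a ha
      obtain ⟨h1, h2⟩ := ha
      constructor
      · rw [Nat.div_lt_iff_lt_mul (by omega)]
        exact Nat.mul_lt_mul_of_pos_left h1 hk1
      · rw [Nat.div_lt_iff_lt_mul (by omega)]
        exact Nat.mul_lt_mul_of_pos_left h2 hk1
    have hk2 : k ^ 2 ≤ 576 := by
      have := Nat.pow_le_pow_left hk 2
      norm_num at this
      exact this
    have dec : ∀ a b i j : ℕ, b < k → j < k → a * k + b = i * k + j → a = i ∧ b = j := by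
      intro a b i j hb hj h
      have h1 : (a * k + b) / k = a := by
        rw [mul_comm, Nat.mul_add_div (by omega), Nat.div_eq_of_lt hb]; rfl
      have h2 : (i * k + j) / k = i := by
        rw [mul_comm, Nat.mul_add_div (by omega), Nat.div_eq_of_lt hj]; rfl
      have h3 : a = i := by rw [← h1, ← h2, h]
      subst h3
      exact ⟨rfl, by omega⟩
    have cb : ∀ i < k, ∀ j < k, i * k + j < k ^ 2 := by
      intro i hi j hj
      calc i * k + j < i * k + k := by omega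
        _ = (i + 1) * k := by ring
        _ ≤ k * k := Nat.mul_le_mul_right _ hi
        _ = k ^ 2 := by ring
    -- the map from the first `k ^ 2` points to the cells
    let F : Fin (k ^ 2) → Fin (k ^ 2) := fun t =>
      ⟨code k (P ⟨t, by have := t.2; norm_num; omega⟩), by
        obtain ⟨b1, b2⟩ := bound _ (hP ⟨t, by have := t.2; norm_num; omega⟩)
        exact cb _ b1 _ b2⟩
    have surj : Function.Surjective F := by
      intro c
      have h1 := chk2 k (by omega)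
      have h2 : (mask k (pts.take (k ^ 2))).testBit c = true := by
        rw [h1, Nat.testBit_two_pow_sub_one]
        simp
      obtain ⟨a, ha, hc⟩ := testBit_mask _ _ _ h2
      obtain ⟨t, ht, hta⟩ := List.mem_iff_getElem.1 ha
      have ht' : t < k ^ 2 := by
        rw [List.length_take] at ht
        omega
      refine ⟨⟨t, ht'⟩, ?_⟩
      apply Fin.ext
      rw [List.getElem_take] at hta
      simp only [F, P]
      rw [hta, hc]
    have inj : Function.Injective F := Finite.injective_iff_surjective.2 surj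
    obtain ⟨t, ht⟩ := surj ⟨i * k + j, cb i hi j hj⟩
    have htc : code k (P ⟨t, by have := t.2; norm_num; omega⟩) = i * k + j :=
      congrArg Fin.val ht
    refine ⟨⟨t, by have := t.2; norm_num; omega⟩, ⟨t.2, ?_⟩, ?_⟩
    · rw [mem _ (hP _)]
      exact dec _ _ _ _ (bound _ (hP _)).2 hj htc
    · rintro ⟨s, hs⟩ ⟨hs1, hs2⟩
      simp only at hs1
      rw [mem _ (hP _)] at hs2
      have : (⟨s, hs1⟩ : Fin (k ^ 2)) = t := by
        apply inj
        apply Fin.ext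
        simp only [F]
        rw [htc, code, hs2.1, hs2.2]
      have h3 : s = (t : ℕ) := congrArg Fin.val this
      exact Fin.ext h3

end Pool.Agent.R50.Grid
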