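import Mathlib

/-!
# Nested grid-equidistributed sequences: a `50512`-good sequence does not exist
-/

set_option autoImplicit false

namespace Pool.Agent.R50.Grid

/-- The cell `[i/k, (i+1)/k) × [j/k, (j+1)/k)` of the `k × k` grid (`0 ≤ i, j < k`). -/
def cell (k i j : ℕ) : Set (ℝ × ℝ) :=
  Set.Ico ((i : ℝ) / k) (((i : ℝ) + 1) / k) ×ˢ Set.Ico ((j : ℝ) / k) (((j : ℝ) + 1) / k)

/-- `Good K x`: the sequence `x` of `K ^ 2` points of `[0,1) × [0,1)` is `K`-good: for all
`k = 1, …, K` each cell of the `k × k` grid contains exactly one of the first `k ^ 2` points. -/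
def Good (K : ℕ) (x : Fin (K ^ 2) → ℝ × ℝ) : Prop :=
  (∀ t, x t ∈ Set.Ico (0 : ℝ) 1 ×ˢ Set.Ico (0 : ℝ) 1) ∧
    ∀ k, 1 ≤ k → k ≤ K → ∀ i < k, ∀ j < k, ∃! t : Fin (K ^ 2), (t : ℕ) < k ^ 2 ∧ x t ∈ cell k i j

/-- Phases: near the point `(1/16, 1/256)` every window of `256` consecutive grids contains one
with respect to which the point has a prescribed position, up to `1/16 + 2 ε`. -/
theorem phase (x y ε : ℝ) (hx : |x - 1 / 16| * 256 ≤ ε) (hy : |y - 1 / 256| * 256 ≤ ε)
    (K0 : ℕ) (u v : ℝ) :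
    ∃ (K : ℕ) (m n : ℤ), K0 ≤ K ∧ K < K0 + 256 ∧ u ≤ K * x - m ∧ K * x - m < u + 1 / 16 + 2 * ε ∧
      v ≤ K * y - n ∧ K * y - n < v + 1 / 16 + 2 * ε := by
  have aux : ∀ c : ℝ, ∃ (i : ℕ) (m : ℤ), i < 16 ∧ 0 ≤ c + (i : ℝ) / 16 - m ∧
      c + (i : ℝ) / 16 - m < 1 / 16 := by
    intro c
    set N : ℤ := ⌈-c * 16⌉ with hN
    have h1 : -c * 16 ≤ N := Int.le_ceil _
    have h2 : (N : ℝ) < -c * 16 + 1 := Int.ceil_lt_add_one _
    have h3 : 0 ≤ N % 16 := Int.emod_nonneg _ (by norm_num)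
    have h4 : N % 16 < 16 := Int.emod_lt_of_pos _ (by norm_num)
    refine ⟨(N % 16).toNat, -(N / 16), by omega, ?_, ?_⟩
    · have h5 : (((N % 16).toNat : ℕ) : ℝ) = ((N % 16 : ℤ) : ℝ) := by
        have : (((N % 16).toNat : ℕ) : ℤ) = N % 16 := Int.toNat_of_nonneg h3
        exact_mod_cast this
      have h6 : ((N % 16 : ℤ) : ℝ) + 16 * ((N / 16 : ℤ) : ℝ) = N := by
        exact_mod_cast Int.emod_add_mul_ediv N 16
      rw [h5]
      push_cast
      linarith
    · have h5 : (((N % 16).toNat : ℕ) : ℝ) = ((N % 16 : ℤ) : ℝ) := by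
        have : (((N % 16).toNat : ℕ) : ℤ) = N % 16 := Int.toNat_of_nonneg h3
        exact_mod_cast this
      have h6 : ((N % 16 : ℤ) : ℝ) + 16 * ((N / 16 : ℤ) : ℝ) = N := by
        exact_mod_cast Int.emod_add_mul_ediv N 16
      rw [h5]
      push_cast
      linarith
  obtain ⟨i, m, hi, hm1, hm2⟩ := aux (K0 * x - u - ε)
  obtain ⟨j, n, hj, hn1, hn2⟩ := aux (K0 * y + (i : ℝ) / 256 - v - ε)
  refine ⟨K0 + i + 16 * j, m + j, n, by omega, by omega, ?_⟩
  set ξ := x - 1 / 16 with hξ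
  set η := y - 1 / 256 with hη
  have hij : (i : ℝ) + 16 * j ≤ 256 := by
    have : i + 16 * j ≤ 256 := by omega
    exact_mod_cast this
  have hij0 : (0 : ℝ) ≤ (i : ℝ) + 16 * j := by positivity
  have e1 : |((i : ℝ) + 16 * j) * ξ| ≤ ε := by
    rw [abs_mul, abs_of_nonneg hij0]
    nlinarith [abs_nonneg ξ]
  have e2 : |((i : ℝ) + 16 * j) * η| ≤ ε := by
    rw [abs_mul, abs_of_nonneg hij0]
    nlinarith [abs_nonneg η]
  rw [abs_le] at e1 e2
  have ex : ((K0 + i + 16 * j : ℕ) : ℝ) * x - ((m + j : ℤ) : ℝ)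
      = (K0 * x + (i : ℝ) / 16 - m) + ((i : ℝ) + 16 * j) * ξ := by
    rw [hξ]
    push_cast
    ring
  have ey : ((K0 + i + 16 * j : ℕ) : ℝ) * y - ((n : ℤ) : ℝ)
      = (K0 * y + (i : ℝ) / 256 + (j : ℝ) / 16 - n) + ((i : ℝ) + 16 * j) * η := by
    rw [hη]
    push_cast
    ring
  rw [ex, ey]
  refine ⟨?_, ?_, ?_, ?_⟩ <;> linarith

theorem lb {K p q : ℝ} (hK : 1000 ≤ K) (hq : 0 ≤ q) (hp : q ≤ p) : 1000 * q ≤ K * p :=
  mul_le_mul hK hp hq (by linarith)

theorem of_mul_le {K d c a : ℝ} (ha : 0 < a) (hK : a ≤ K) (hc : 0 ≤ c) (h : K * d ≤ c) :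
    d ≤ c / a := by
  rw [le_div_iff₀ ha]
  by_contra h'
  push Not at h'
  have hd : 0 < d := by
    by_contra hd
    push Not at hd
    have := mul_nonneg (neg_nonneg.2 hd) ha.le
    linarith
  have := mul_le_mul_of_nonneg_right hK hd.le
  linarith

theorem pos_of_mul {K d : ℝ} (hK : 0 < K) (h : 0 < K * d) : 0 < d :=
  (pos_iff_pos_of_mul_pos h).1 hK

section

variable {K : ℕ} {x : Fin (K ^ 2) → ℝ × ℝ}

/-- The point at distance at most `5/10^5` from `(1/16, 1/256)`. -/
def Near (p : ℝ × ℝ) : Prop := |p.1 - 1 / 16| ≤ 523 / 10 ^ 7 ∧ |p.2 - 1 / 256| ≤ 523 / 10 ^ 7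

theorem phase' {p : ℝ × ℝ} (hp : Near p) (K0 : ℕ) (u v : ℝ) :
    ∃ (K : ℕ) (m n : ℤ), K0 ≤ K ∧ K < K0 + 256 ∧ u ≤ K * p.1 - m ∧ K * p.1 - m < u + 9 / 100 ∧
      v ≤ K * p.2 - n ∧ K * p.2 - n < v + 9 / 100 := by
  obtain ⟨K, m, n, h1, h2, h3, h4, h5, h6⟩ := phase p.1 p.2 (134 / 10000)
    (by have := hp.1; norm_num at this ⊢; linarith) (by have := hp.2; norm_num at this ⊢; linarith)
    K0 u v
  exact ⟨K, m, n, h1, h2, h3, by linarith, h5, by linarith⟩

/-- Existence: near `p` there is a point of the sequence in a cell of a grid in the window, the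
cell having a prescribed position with respect to `p`. -/
theorem exist (hx : Good K x) {p : ℝ × ℝ} (hp : Near p) (K0 : ℕ) (h0 : 1000 ≤ K0)
    (hK : K0 + 256 ≤ K + 1) (u v : ℝ) (hu : |u| ≤ 1) (hv : |v| ≤ 1) :
    ∃ (t : Fin (K ^ 2)) (K1 : ℕ), K0 ≤ K1 ∧ K1 < K0 + 256 ∧ (t : ℕ) < K1 ^ 2 ∧
      -u - 9 / 100 < K1 * ((x t).1 - p.1) ∧ K1 * ((x t).1 - p.1) ≤ 1 - u ∧
      -v - 9 / 100 < K1 * ((x t).2 - p.2) ∧ K1 * ((x t).2 - p.2) ≤ 1 - v ∧
      (v + 9 / 100 ≤ 0 → 0 < K1 * ((x t).2 - p.2)) := by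
  obtain ⟨K1, m, n, h1, h2, h3, h4, h5, h6⟩ := phase' hp K0 u v
  have hK1 : (1000 : ℝ) ≤ K1 := by
    have : 1000 ≤ K1 := le_trans h0 h1
    exact_mod_cast this
  have hpos : (0 : ℝ) < K1 := by linarith
  have hp1 := hp.1
  have hp2 := hp.2
  rw [abs_le] at hp1 hp2 hu hv
  have q1 : (56 : ℝ) ≤ K1 * p.1 := by
    have := lb (q := 56 / 1000) hK1 (by norm_num) (p := p.1) (by linarith [hp1.1])
    linarith
  have q2 : (3 : ℝ) ≤ K1 * p.2 := by
    have := lb (q := 3 / 1000) hK1 (by norm_num) (p := p.2) (by linarith [hp2.1])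
    linarith
  have q3 : K1 * p.1 ≤ K1 * (1 / 10) := by
    apply mul_le_mul_of_nonneg_left _ hpos.le
    linarith [hp1.2]
  have q4 : K1 * p.2 ≤ K1 * (1 / 10) := by
    apply mul_le_mul_of_nonneg_left _ hpos.le
    linarith [hp2.2]
  have m0 : 0 < m := by
    have : (0 : ℝ) < m := by linarith
    exact_mod_cast this
  have n0 : 0 < n := by
    have : (0 : ℝ) < n := by linarith
    exact_mod_cast this
  have m1 : m < K1 := by
    have : (m : ℝ) < K1 := by linarith
    exact_mod_cast this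
  have n1 : n < K1 := by
    have : (n : ℝ) < K1 := by linarith
    exact_mod_cast this
  obtain ⟨t, ⟨ht1, ht2⟩, -⟩ := hx.2 K1 (by omega) (by omega) m.toNat (by omega) n.toNat (by omega)
  have em : ((m.toNat : ℕ) : ℝ) = m := by
    have : ((m.toNat : ℕ) : ℤ) = m := Int.toNat_of_nonneg m0.le
    exact_mod_cast this
  have en : ((n.toNat : ℕ) : ℝ) = n := by
    have : ((n.toNat : ℕ) : ℤ) = n := Int.toNat_of_nonneg n0.le
    exact_mod_cast this
  simp only [cell, Set.mem_prod, Set.mem_Ico, em, en] at ht2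
  obtain ⟨⟨a1, a2⟩, b1, b2⟩ := ht2
  rw [div_le_iff₀ hpos] at a1 b1
  rw [lt_div_iff₀ hpos] at a2 b2
  rw [mul_comm] at a1 a2 b1 b2
  refine ⟨t, K1, h1, h2, ht1, ?_, ?_, ?_, ?_, ?_⟩
  · rw [mul_sub]; linarith
  · rw [mul_sub]; linarith
  · rw [mul_sub]; linarith
  · rw [mul_sub]; linarith
  · intro hv'
    rw [mul_sub]; linarith

/-- Separation: two different points of the sequence near `(1/16, 1/256)` are not too close. -/
theorem separate (hx : Good K x) (K0 : ℕ) (h0 : 1000 ≤ K0) (hK : K0 + 256 ≤ K + 1)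
    {s t : Fin (K ^ 2)} (hst : s ≠ t) (hs : (s : ℕ) < K0 ^ 2) (ht : (t : ℕ) < K0 ^ 2)
    (hp : Near (x s)) (hX : |(x t).1 - (x s).1| * (K0 + 256) < 91 / 100)
    (hY : |(x t).2 - (x s).2| * (K0 + 256) < 91 / 100) : False := by
  set dx := (x t).1 - (x s).1 with hdx
  set dy := (x t).2 - (x s).2 with hdy
  obtain ⟨K1, m, n, h1, h2, h3, h4, h5, h6⟩ := phase' hp K0 (if 0 ≤ dx then 0 else 91 / 100)
    (if 0 ≤ dy then 0 else 91 / 100)
  have hK1 : (1000 : ℝ) ≤ K1 := by
    have : 1000 ≤ K1 := le_trans h0 h1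
    exact_mod_cast this
  have hK2 : (K1 : ℝ) ≤ K0 + 256 := by
    have : K1 ≤ K0 + 256 := h2.le
    exact_mod_cast this
  have hpos : (0 : ℝ) < K1 := by linarith
  have hp1 := hp.1
  have hp2 := hp.2
  rw [abs_le] at hp1 hp2
  have q1 : (56 : ℝ) ≤ K1 * (x s).1 := by
    have := lb (q := 56 / 1000) hK1 (by norm_num) (p := (x s).1) (by linarith [hp1.1])
    linarith
  have q2 : (3 : ℝ) ≤ K1 * (x s).2 := by
    have := lb (q := 3 / 1000) hK1 (by norm_num) (p := (x s).2) (by linarith [hp2.1])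
    linarith
  have q3 : K1 * (x s).1 ≤ K1 * (1 / 10) := by
    apply mul_le_mul_of_nonneg_left _ hpos.le
    linarith [hp1.2]
  have q4 : K1 * (x s).2 ≤ K1 * (1 / 10) := by
    apply mul_le_mul_of_nonneg_left _ hpos.le
    linarith [hp2.2]
  -- the offset of `x s` and of `x t` in the cell
  have key : ∀ (d : ℝ) (X : ℝ) (m : ℤ), |d| * (K0 + 256) < 91 / 100 →
      (if 0 ≤ d then (0 : ℝ) else 91 / 100) ≤ K1 * X - m →
      K1 * X - m < (if 0 ≤ d then (0 : ℝ) else 91 / 100) + 9 / 100 →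
      0 ≤ K1 * X - m ∧ K1 * X - m < 1 ∧ 0 ≤ K1 * (X + d) - m ∧ K1 * (X + d) - m < 1 := by
    intro d X m hd g1 g2
    rw [mul_add]
    split_ifs at g1 g2 with h
    · rw [abs_of_nonneg h] at hd
      have : K1 * d ≤ d * (K0 + 256) := by
        rw [mul_comm]
        exact mul_le_mul_of_nonneg_left hK2 h
      have h' : 0 ≤ K1 * d := mul_nonneg hpos.le h
      refine ⟨g1, by linarith, by linarith, by linarith⟩
    · push Not at h
      rw [abs_of_neg h] at hd
      have : K1 * -d ≤ -d * (K0 + 256) := by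
        rw [mul_comm]
        exact mul_le_mul_of_nonneg_left hK2 (by linarith)
      have h' : K1 * d < 0 := mul_neg_of_pos_of_neg hpos h
      rw [mul_neg] at this
      refine ⟨by linarith, by linarith, by linarith, by linarith⟩
  obtain ⟨a1, a2, a3, a4⟩ := key dx (x s).1 m hX h3 h4
  obtain ⟨b1, b2, b3, b4⟩ := key dy (x s).2 n hY h5 h6
  have m0 : 0 < m := by
    have : (0 : ℝ) < m := by linarith
    exact_mod_cast this
  have n0 : 0 < n := by
    have : (0 : ℝ) < n := by linarith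
    exact_mod_cast this
  have m1 : m < K1 := by
    have : (m : ℝ) < K1 := by linarith
    exact_mod_cast this
  have n1 : n < K1 := by
    have : (n : ℝ) < K1 := by linarith
    exact_mod_cast this
  have hsq : K0 ^ 2 ≤ K1 ^ 2 := Nat.pow_le_pow_left h1 2
  obtain ⟨r, -, hr⟩ := hx.2 K1 (by omega) (by omega) m.toNat (by omega) n.toNat (by omega)
  have em : ((m.toNat : ℕ) : ℝ) = m := by
    have : ((m.toNat : ℕ) : ℤ) = m := Int.toNat_of_nonneg m0.le
    exact_mod_cast this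
  have en : ((n.toNat : ℕ) : ℝ) = n := by
    have : ((n.toNat : ℕ) : ℤ) = n := Int.toNat_of_nonneg n0.le
    exact_mod_cast this
  have cs : s = r := by
    apply hr
    refine ⟨by omega, ?_⟩
    simp only [cell, Set.mem_prod, Set.mem_Ico, em, en]
    rw [div_le_iff₀ hpos, div_le_iff₀ hpos, lt_div_iff₀ hpos, lt_div_iff₀ hpos]
    refine ⟨⟨?_, ?_⟩, ?_, ?_⟩ <;> linarith
  have ct : t = r := by
    apply hr
    refine ⟨by omega, ?_⟩
    simp only [cell, Set.mem_prod, Set.mem_Ico, em, en]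
    rw [div_le_iff₀ hpos, div_le_iff₀ hpos, lt_div_iff₀ hpos, lt_div_iff₀ hpos]
    have e1 : (x s).1 + dx = (x t).1 := by rw [hdx]; ring
    have e2 : (x s).2 + dy = (x t).2 := by rw [hdy]; ring
    rw [e1] at a3 a4
    rw [e2] at b3 b4
    refine ⟨⟨?_, ?_⟩, ?_, ?_⟩ <;> linarith
  exact hst (cs.trans ct.symm)

/-- There is no `K`-good sequence for `K ≥ 50512`. -/
theorem upper (hx : Good K x) (hK : 50512 ≤ K) : False := by
  -- the point `p`
  obtain ⟨p, ⟨hp1, hp2⟩, -⟩ := hx.2 40000 (by norm_num) (by omega) 2500 (by norm_num) 156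
    (by norm_num)
  simp only [cell, Set.mem_prod, Set.mem_Ico] at hp2
  obtain ⟨⟨p1, p2⟩, p3, p4⟩ := hp2
  norm_num at p1 p2 p3 p4
  have np : Near (x p) := by
    constructor
    · rw [abs_le]; constructor <;> linarith
    · rw [abs_le]; constructor <;> linarith
  -- the point `q` above `p`
  obtain ⟨q, K1, h1, h2, hq, q1, q2, q3, q4, q5⟩ := exist hx np 40000 (by norm_num) (by omega)
    (91 / 200) (-(9 / 100)) (by rw [abs_le]; constructor <;> norm_num)
    (by rw [abs_le]; constructor <;> norm_num)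
  have q5 := q5 (by norm_num)
  have k1 : (40000 : ℝ) ≤ K1 := by exact_mod_cast h1
  have k1' : (0 : ℝ) < K1 := by linarith
  set dx := (x q).1 - (x p).1 with hdx
  set dy := (x q).2 - (x p).2 with hdy
  have dy0 : 0 < dy := pos_of_mul k1' q5
  have dy1 : dy ≤ 109 / 4000000 := by
    have := of_mul_le (c := 109 / 100) (by norm_num) k1 (by norm_num) (d := dy) (by linarith)
    linarith
  have dx1 : dx ≤ 109 / 8000000 := by
    have := of_mul_le (c := 109 / 200) (by norm_num) k1 (by norm_num) (d := dx) (by linarith)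
    linarith
  have dx2 : -(109 / 8000000) ≤ dx := by
    have := of_mul_le (c := 109 / 200) (by norm_num) k1 (by norm_num) (d := -dx)
      (by rw [mul_neg]; linarith)
    linarith
  have nq : Near (x q) := by
    obtain ⟨n1, n2⟩ := np
    have e1 : (x q).1 = (x p).1 + dx := by rw [hdx]; ring
    have e2 : (x q).2 = (x p).2 + dy := by rw [hdy]; ring
    constructor
    · rw [abs_le, e1]; constructor <;> linarith
    · rw [abs_le, e2]; constructor <;> linarith
  have hpq : p ≠ q := by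
    rintro rfl
    rw [hdy] at dy0
    simp at dy0
  have sq1 : K1 ^ 2 ≤ 40256 ^ 2 := Nat.pow_le_pow_left (by omega) 2
  have dy2 : 91 / 100 / 40512 ≤ dy := by
    by_contra h
    push Not at h
    apply separate hx 40256 (by norm_num) (by omega) hpq (by omega) (by omega) np
    · rw [← hdx]
      have : |dx| ≤ 109 / 8000000 := by rw [abs_le]; exact ⟨dx2, dx1⟩
      norm_num
      linarith
    · rw [← hdy, abs_of_pos dy0]
      norm_num at h ⊢
      linarith
  -- the point `r` between `p` and `q`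
  obtain ⟨u, hu, hu6, hu1, hu2, hu3, hu4⟩ : ∃ u : ℝ, |u| ≤ 1 ∧ 0 ≤ u + 9 / 100 ∧ (u + 9 / 100) / 50000 < 91 / 100 / 50512 ∧
      (1 - u) / 50000 < 91 / 100 / 50512 ∧ (u + 9 / 100) / 50000 + dx < 91 / 100 / 50512 ∧
      (1 - u) / 50000 - dx < 91 / 100 / 50512 := by
    rcases le_or_gt 0 dx with h | h
    · refine ⟨11 / 100, by rw [abs_le]; constructor <;> norm_num, by norm_num,
        by norm_num, by norm_num, ?_, ?_⟩
      · norm_num
        linarith
      · norm_num
        linarith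
    · refine ⟨80 / 100, by rw [abs_le]; constructor <;> norm_num, by norm_num,
        by norm_num, by norm_num, ?_, ?_⟩
      · norm_num
        linarith
      · norm_num
        linarith
  obtain ⟨r, K2, g1, g2, hr, r1, r2, r3, r4, r5⟩ := exist hx np 50000 (by norm_num) (by omega)
    u (-(9 / 100)) hu (by rw [abs_le]; constructor <;> norm_num)
  have r5 := r5 (by norm_num)
  have k2 : (50000 : ℝ) ≤ K2 := by exact_mod_cast g1
  have k2' : (0 : ℝ) < K2 := by linarith
  set ex := (x r).1 - (x p).1 with hex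
  set ey := (x r).2 - (x p).2 with hey
  have ey0 : 0 < ey := pos_of_mul k2' r5
  have ey1 : ey ≤ 109 / 5000000 := by
    have := of_mul_le (c := 109 / 100) (by norm_num) k2 (by norm_num) (d := ey) (by linarith)
    linarith
  have hu5 : 0 ≤ 1 - u := by
    rw [abs_le] at hu
    linarith [hu.2]
  have ex1 : ex ≤ (1 - u) / 50000 := of_mul_le (by norm_num) k2 hu5 r2
  have ex2 : -((u + 9 / 100) / 50000) ≤ ex := by
    rw [neg_le]
    exact of_mul_le (by norm_num) k2 hu6 (by rw [mul_neg]; linarith)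
  have hpr : p ≠ r := by
    rintro rfl
    rw [hey] at ey0
    simp at ey0
  have hqr : q ≠ r := by
    rintro rfl
    have : dy = ey := by rw [hdy, hey]
    rw [this] at dy2
    norm_num at dy2
    linarith
  have sq2 : K2 ^ 2 ≤ 50256 ^ 2 := Nat.pow_le_pow_left (by omega) 2
  have sq3 : K1 ^ 2 ≤ 50256 ^ 2 := Nat.pow_le_pow_left (by omega) 2
  have f1 : 91 / 100 / 50512 ≤ ey := by
    by_contra h
    push Not at h
    apply separate hx 50256 (by norm_num) (by omega) hpr (by omega) (by omega) np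
    · rw [← hex]
      have : |ex| < 91 / 100 / 50512 := by rw [abs_lt]; constructor <;> linarith
      norm_num at this ⊢
      linarith
    · rw [← hey, abs_of_pos ey0]
      norm_num at h ⊢
      linarith
  have f2 : 91 / 100 / 50512 ≤ dy - ey := by
    by_contra h
    push Not at h
    have e1 : (x r).1 - (x q).1 = ex - dx := by rw [hex, hdx]; ring
    have e2 : (x r).2 - (x q).2 = ey - dy := by rw [hey, hdy]; ring
    apply separate hx 50256 (by norm_num) (by omega) hqr (by omega) (by omega) nq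
    · rw [e1]
      have : |ex - dx| < 91 / 100 / 50512 := by rw [abs_lt]; constructor <;> linarith
      norm_num at this ⊢
      linarith
    · rw [e2]
      have : |ey - dy| < 91 / 100 / 50512 := by
        rw [abs_lt]
        constructor
        · linarith
        · norm_num at dy2 ⊢
          linarith
      norm_num at this ⊢
      linarith
  norm_num at f1 f2
  linarith

end

end Pool.Agent.R50.Grid
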